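import Pool.Agent.P.MP_3edc48_gt.Add

set_option autoImplicit false

open Pool.Agent.P.MP_3edc48_gt

theorem Pool.Agent.Results.MP_3edc48_gt.AddRationals.result :
    ∃ κ : Cardinal,
      IsLeast {c : Cardinal | ∃ X : Set ℝ, Cardinal.mk X = c ∧
        KappaFrechet {f : X → ℝ // Continuous f} ∧
        ¬ KappaFrechet
          {f : (X ∪ Set.range ((↑) : ℚ → ℝ) : Set ℝ) → ℝ // Continuous f}} κ ∧
      IsLeast {c : Cardinal | ∃ A : Set ℝ, Cardinal.mk A = c ∧ ¬ IsMeagre A} κ :=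
  Pool.Agent.P.MP_3edc48_gt.main_add
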