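import Pool.Agent.P.MP_3edc48_gt.Loc

set_option autoImplicit false

open Pool.Agent.P.MP_3edc48_gt

theorem Pool.Agent.Results.MP_3edc48_gt.LocallySmall.result :
    ∃ κ : Cardinal,
      IsGreatest {μ : Cardinal | ∀ (X : Type) [TopologicalSpace X] [T35Space X],
        (∀ x : X, ∃ U ∈ nhds x, Cardinal.mk U < μ) →
          KappaFrechet {f : X → ℝ // Continuous f}} κ ∧
      IsLeast {c : Cardinal | ∃ A : Set ℝ, Cardinal.mk A = c ∧ ¬ IsMeagre A} κ :=
  Pool.Agent.P.MP_3edc48_gt.main_loc
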