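import Pool.Agent.P.MP_3edc48_gt.Upper

set_option autoImplicit false

open Pool.Agent.P.MP_3edc48_gt

theorem Pool.Agent.Results.MP_3edc48_gt.NonMeagre.result :
    ∃ κ : Cardinal,
      IsLeast {c : Cardinal | ∃ X : Set ℝ, Cardinal.mk X = c ∧
        ¬ KappaFrechet {f : X → ℝ // Continuous f}} κ ∧
      IsLeast {c : Cardinal | ∃ A : Set ℝ, Cardinal.mk A = c ∧ ¬ IsMeagre A} κ :=
  Pool.Agent.P.MP_3edc48_gt.main
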